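import Pool.Agent.N113.SK.Def

/-!
# Additive maps which respect the inversions of the numbers `z + c`
-/

set_option autoImplicit false

namespace Pool.Agent.N113.SL

open UpperHalfPlane

/-- The additive map `D` vanishes at the algebraic numbers, and it satisfies the rule of differentiation
for the inverse of `t i + c`, for all the points `t i` and `c = 0, 1, 2, …`. -/
structure Adm {κ : Type} (t : κ → ℍ) (D : ℂ →ₗ[ℚ] ℂ) : Prop where
  alg : ∀ a : ℂ, IsAlgebraic ℚ a → D a = 0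
  inv : ∀ (i : κ) (c : ℕ), D ((t i : ℂ) + c)⁻¹ = -D (t i) / ((t i : ℂ) + c) ^ 2

theorem Adm.add {κ : Type} {t : κ → ℍ} {D D' : ℂ →ₗ[ℚ] ℂ} (h : Adm t D) (h' : Adm t D') :
    Adm t (D + D') :=
  ⟨fun a ha => by rw [LinearMap.add_apply, h.alg a ha, h'.alg a ha, add_zero],
    fun i c => by rw [LinearMap.add_apply, LinearMap.add_apply, h.inv, h'.inv]; ring⟩

theorem Adm.smul {κ : Type} {t : κ → ℍ} {D : ℂ →ₗ[ℚ] ℂ} (h : Adm t D) (a : ℂ) :
    Adm t (a • D) :=
  ⟨fun b hb => by rw [LinearMap.smul_apply, h.alg b hb, smul_zero],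
    fun i c => by
      rw [LinearMap.smul_apply, LinearMap.smul_apply, h.inv, smul_eq_mul, smul_eq_mul]; ring⟩

theorem Adm.zero {κ : Type} {t : κ → ℍ} : Adm t (0 : ℂ →ₗ[ℚ] ℂ) :=
  ⟨fun _ _ => rfl, fun i c => by simp⟩

/-- The coordinates: the points `t i`, the values at these points, and further numbers. -/
def co {α π κ : Type} (F : ℍ → α → ℂ) (p : π → ℂ) (t : κ → ℍ) : κ × Option α ⊕ π → ℂ :=
  Sum.elim (fun x => x.2.elim (t x.1 : ℂ) (F (t x.1))) p

/-- The space of the vectors of the values of the maps `D` at the coordinates. -/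
def Der {α π κ : Type} (F : ℍ → α → ℂ) (p : π → ℂ) (t : κ → ℍ) :
    Submodule ℂ (κ × Option α ⊕ π → ℂ) where
  carrier := {v | ∃ D : ℂ →ₗ[ℚ] ℂ, Adm t D ∧ v = fun x => D (co F p t x)}
  zero_mem' := ⟨0, Adm.zero, rfl⟩
  add_mem' := by
    rintro _ _ ⟨D, hD, rfl⟩ ⟨D', hD', rfl⟩
    exact ⟨D + D', hD.add hD', rfl⟩
  smul_mem' := by
    rintro c _ ⟨D, hD, rfl⟩
    exact ⟨c • D, hD.smul c, rfl⟩

end Pool.Agent.N113.SL
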