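import Pool.Agent.N113.SL.Sq
import Pool.Agent.N113.SK.Main

/-!
# The statement on transcendence degrees is equivalent to the statement on linear relations
-/

set_option autoImplicit false
set_option linter.unusedSectionVars false

namespace Pool.Agent.N113.SL

open UpperHalfPlane Module MvPolynomial
open Pool.Agent.N113.SK (Eqv CM)

variable {α π : Type} [Fintype α] [Fintype π] {F : ℍ → α → ℂ} {p : π → ℂ}

/-- **Linear relations suffice**, for a fixed tuple and its extensions. -/
theorem exists_indep {A : Tup} (hA : Good A) (d : ℤ)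
    (hL : ∀ C, Ext F p A C →
      ((Fintype.card α * Fintype.card C.κ : ℕ) : ℤ) + d ≤ finrank ℂ (Der F p C.t)) :
    ∃ s : Finset (A.κ × Option α ⊕ π), AlgebraicIndependent ℚ (fun i : s => co F p A.t i) ∧
      ((Fintype.card α * Fintype.card A.κ : ℕ) : ℤ) + d ≤ s.card := by
  classical
  obtain ⟨s, P, hs, hP⟩ := SK.exists_basis (co F p A.t)
  obtain ⟨C, hC, h3⟩ := Rz.polys (F := F) (p := p) hA Finset.univ P
  obtain ⟨-, g, hg, h4⟩ := id hC
  let L : Der F p C.t →ₗ[ℂ] (s → ℂ) :=
    (LinearMap.funLeft ℂ ℂ (fun i : s => cmap g (i : A.κ × Option α ⊕ π))).domRestrict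
      (Der F p C.t)
  have h5 := L.finrank_range_add_finrank_ker
  have h6 : finrank ℂ (LinearMap.range L) ≤ s.card :=
    (Submodule.finrank_le _).trans (by rw [finrank_pi, Fintype.card_coe])
  have h7 : finrank ℂ (LinearMap.ker L) ≤ finrank ℂ (Ker F p C g) := by
    rw [← Submodule.finrank_map_subtype_eq]
    refine Submodule.finrank_mono ?_
    rintro _ ⟨v, hv, rfl⟩
    obtain ⟨D, hD, hvD⟩ := v.2
    refine (mem_Ker F p hg _).2 ⟨D, hD, hvD, fun x => ?_⟩
    have h8 : ∀ y ∈ s, D (co F p A.t y) = 0 := by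
      intro y hy
      have h9 := congrFun (LinearMap.mem_ker.1 hv) ⟨y, hy⟩
      change (v : C.κ × Option α ⊕ π → ℂ) (cmap g y) = 0 at h9
      rw [hvD] at h9
      change D (co F p C.t (cmap g y)) = 0 at h9
      rw [co_comp F p hg] at h9
      exact h9
    by_cases hx : x ∈ s
    · exact h8 x hx
    · obtain ⟨h9, h10, h11⟩ := hP x hx
      have h12 := h3 D hD x (Finset.mem_univ _)
      rw [h9, map_zero, Finset.sum_eq_single x] at h12
      · exact (mul_eq_zero.1 h12.symm).resolve_left h10
      · intro y _ hyx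
        by_cases hy : y ∈ s
        · rw [h8 y hy, mul_zero]
        · rw [h11 y hy hyx, map_zero, zero_mul]
      · intro h
        exact absurd (Finset.mem_univ _) h
  have h8 := hL C hC
  refine ⟨s, hs, ?_⟩
  zify at h4 h5 h6 h7
  push_cast at h8 ⊢
  linarith

/-- derivations are admissible -/
theorem der_adm {κ : Type} (t : κ → ℍ) (D : Derivation ℚ ℂ ℂ) : Adm t D.toLinearMap := by
  have h1 : ∀ x y : ℂ, SK.Respects D.toLinearMap x y := by
    intro x y P hP
    have h2 := Pool.Agent.H248R5.derivation_aeval D ![x, y] P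
    rw [hP, map_zero, Fin.sum_univ_two] at h2
    exact h2.symm
  refine ⟨fun a ha => SK.det_alg0 (h1 a a) ha, fun i c => ?_⟩
  change D ((t i : ℂ) + c)⁻¹ = -D (t i) / ((t i : ℂ) + c) ^ 2
  rw [Derivation.leibniz_inv, map_add, Derivation.map_natCast, add_zero, smul_eq_mul, inv_pow,
    neg_mul, neg_div, div_eq_inv_mul]

/-- algebraically independent coordinates give linearly independent vectors -/
theorem card_le_finrank {κ σ : Type} [Fintype κ] [Fintype σ] (t : κ → ℍ)
    (x : σ → κ × Option α ⊕ π) (hx : AlgebraicIndependent ℚ fun i => co F p t (x i)) :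
    Fintype.card σ ≤ finrank ℂ (Der F p t) := by
  classical
  choose D hD using fun i => Pool.Agent.H248R6.exists_der _ hx i
  let b : σ → Der F p t := fun i =>
    ⟨fun y => D i (co F p t y), (D i).toLinearMap, der_adm t (D i), rfl⟩
  have hb : LinearIndependent ℂ b := by
    rw [Fintype.linearIndependent_iff]
    intro a ha k
    have h3 := congrFun (congrArg (fun v : Der F p t => (v : κ × Option α ⊕ π → ℂ)) ha) (x k)
    simp only [Submodule.coe_sum, Submodule.coe_smul, Finset.sum_apply, Pi.smul_apply,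
      smul_eq_mul, b, Submodule.coe_zero, Pi.zero_apply] at h3
    rw [Finset.sum_eq_single k] at h3
    · rw [(hD k k).1 rfl, mul_one] at h3
      exact h3
    · intro i _ hik
      rw [(hD i k).2 hik, mul_zero]
    · intro h
      exact absurd (Finset.mem_univ _) h
  exact hb.fintype_card_le_finrank

/-- `B` contains the points of `A` -/
def Sub (A B : Tup) : Prop := ∃ g : A.κ → B.κ, ∀ i, B.t (g i) = A.t i

/-- **The local statement.** -/
theorem local_iff (F : ℍ → α → ℂ) (p : π → ℂ) (A : Tup) (d : ℤ) :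
    (∀ B, Good B → Sub A B → ∃ s : Finset (B.κ × Option α ⊕ π),
      AlgebraicIndependent ℚ (fun i : s => co F p B.t i) ∧
        ((Fintype.card α * Fintype.card B.κ : ℕ) : ℤ) + d ≤ s.card) ↔
    (∀ B, Good B → Sub A B →
      ((Fintype.card α * Fintype.card B.κ : ℕ) : ℤ) + d ≤ finrank ℂ (Der F p B.t)) := by
  constructor
  · intro h B hB hAB
    obtain ⟨s, hs, h1⟩ := h B hB hAB
    have h2 := card_le_finrank B.t (fun i : s => (i : B.κ × Option α ⊕ π)) hs
    rw [Fintype.card_coe] at h2
    have h3 : (s.card : ℤ) ≤ finrank ℂ (Der F p B.t) := by exact_mod_cast h2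
    exact h1.trans h3
  · rintro h B hB ⟨g, hg⟩
    refine exists_indep hB d ?_
    rintro C ⟨hC, g', hg', -⟩
    exact h C hC ⟨g' ∘ g, fun i => by rw [Function.comp_apply, hg', hg]⟩

/-- renaming the coordinates -/
theorem finrank_names {κ σ : Type} [Fintype κ] [Fintype σ] (t : κ → ℍ)
    (e : κ × Option α ⊕ π ≃ σ) (y : σ → ℂ) (hy : ∀ x, y (e x) = co F p t x)
    (S : Submodule ℂ (σ → ℂ))
    (hS : ∀ v, v ∈ S ↔ ∃ D : ℂ →ₗ[ℚ] ℂ, Adm t D ∧ v = fun s => D (y s)) :
    finrank ℂ S = finrank ℂ (Der F p t) := by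
  have h1 : Der F p t = S.map (LinearEquiv.funCongrLeft ℂ ℂ e).toLinearMap := by
    ext v
    constructor
    · rintro ⟨D, hD, rfl⟩
      refine ⟨fun s => D (y s), (hS _).2 ⟨D, hD, rfl⟩, ?_⟩
      funext x
      exact congrArg D (hy x)
    · rintro ⟨w, hw, rfl⟩
      obtain ⟨D, hD, rfl⟩ := (hS w).1 hw
      refine ⟨D, hD, ?_⟩
      funext x
      exact congrArg D (hy x)
  rw [h1]
  exact (LinearEquiv.finrank_map_eq (LinearEquiv.funCongrLeft ℂ ℂ e) S).symm

theorem indep_names {κ σ : Type} [Fintype κ] [Fintype σ] (t : κ → ℍ)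
    (e : κ × Option α ⊕ π ≃ σ) (y : σ → ℂ) (hy : ∀ x, y (e x) = co F p t x) (N : ℤ) :
    (∃ s : Finset (κ × Option α ⊕ π), AlgebraicIndependent ℚ (fun i : s => co F p t i) ∧
      N ≤ s.card) ↔
    ∃ s : Finset σ, AlgebraicIndependent ℚ (fun i : s => y i) ∧ N ≤ s.card := by
  constructor
  · rintro ⟨s, hs, hN⟩
    refine ⟨s.map e.toEmbedding, ?_, by rw [Finset.card_map]; exact hN⟩
    have h1 : ∀ i : ↥(s.map e.toEmbedding), e.symm i ∈ s := by
      rintro ⟨i, hi⟩
      obtain ⟨x, hx, rfl⟩ := Finset.mem_map.1 hi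
      change e.symm (e x) ∈ s
      rw [e.symm_apply_apply]
      exact hx
    have h2 := hs.comp (fun i : ↥(s.map e.toEmbedding) => (⟨e.symm i, h1 i⟩ : s))
      (fun i k h => Subtype.ext (e.symm.injective (congrArg Subtype.val h)))
    have h3 : (fun i : ↥(s.map e.toEmbedding) => y i) = (fun i : s => co F p t i) ∘
        (fun i : ↥(s.map e.toEmbedding) => (⟨e.symm i, h1 i⟩ : s)) := by
      funext i
      change y i = co F p t (e.symm i)
      rw [← hy, e.apply_symm_apply]
    rw [h3]
    exact h2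
  · rintro ⟨s, hs, hN⟩
    refine ⟨s.map e.symm.toEmbedding, ?_, by rw [Finset.card_map]; exact hN⟩
    have h1 : ∀ i : ↥(s.map e.symm.toEmbedding), e i ∈ s := by
      rintro ⟨i, hi⟩
      obtain ⟨x, hx, rfl⟩ := Finset.mem_map.1 hi
      change e (e.symm x) ∈ s
      rw [e.apply_symm_apply]
      exact hx
    have h2 := hs.comp (fun i : ↥(s.map e.symm.toEmbedding) => (⟨e i, h1 i⟩ : s))
      (fun i k h => Subtype.ext (e.injective (congrArg Subtype.val h)))
    have h3 : (fun i : ↥(s.map e.symm.toEmbedding) => co F p t i) = (fun i : s => y i) ∘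
        (fun i : ↥(s.map e.symm.toEmbedding) => (⟨e i, h1 i⟩ : s)) := by
      funext i
      change co F p t i = y (e i)
      rw [← hy]
    rw [h3]
    exact h2

/-- `N` independent members of a finite family, as a map -/
theorem indep_fin {σ : Type} [Fintype σ] (y : σ → ℂ) (N : ℕ) :
    (∃ s : Finset σ, AlgebraicIndependent ℚ (fun i : s => y i) ∧ N ≤ s.card) ↔
    ∃ f : Fin N → σ, AlgebraicIndependent ℚ (fun k => y (f k)) := by
  classical
  constructor
  · rintro ⟨s, hs, hN⟩
    obtain ⟨e⟩ := Function.Embedding.nonempty_of_card_le (α := Fin N) (β := s) (by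
      rw [Fintype.card_fin, Fintype.card_coe]
      exact hN)
    exact ⟨fun k => (e k : σ), hs.comp e e.injective⟩
  · rintro ⟨f, hf⟩
    have hfi : Function.Injective f := fun i k h => hf.injective (by
      rw [h])
    refine ⟨Finset.univ.image f, ?_, by
      rw [Finset.card_image_of_injective _ hfi, Finset.card_univ, Fintype.card_fin]⟩
    have h1 : ∀ i : ↥(Finset.univ.image f), ∃ k, f k = i := fun i => by
      obtain ⟨k, -, hk⟩ := Finset.mem_image.1 i.2
      exact ⟨k, hk⟩
    choose g hg using h1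
    have h2 := hf.comp g (fun i k h => Subtype.ext (by rw [← hg i, ← hg k, h]))
    have h3 : (fun i : ↥(Finset.univ.image f) => y i) = (fun k => y (f k)) ∘ g := by
      funext i
      change y i = y (f (g i))
      rw [hg]
    rw [h3]
    exact h2

end Pool.Agent.N113.SL
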